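import Pool.Agent.Helper65.KH.Goals

/-!
# Project KH (MP_20ee5e_ag): goal W1, a special word
-/

set_option autoImplicit false

open MvPolynomial

namespace Pool.Agent.Helper67.KH.W1

open Pool.Agent.Helper65.KH

theorem t : S_W1 := by
  intro ι _ _ V D i0 φ
  classical
  set B : Finset ι := (Finset.univ.image φ).erase i0 with hB
  have hB1 : ∀ b : {b // b ∈ B}, ∃ j, φ j = b.1 := by
    rintro ⟨b, hb⟩
    have h1 := Finset.mem_of_mem_erase hb
    rw [Finset.mem_image] at h1
    obtain ⟨j, -, hj⟩ := h1
    exact ⟨j, hj⟩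
  choose g hg using hB1
  have hginj : Function.Injective g := by
    intro b c hbc
    apply Subtype.ext
    rw [← hg b, ← hg c, hbc]
  let e : {j // j ∈ Set.range g} ≃ {b // b ∈ B} := (Equiv.ofInjective g hginj).symm
  let π : Equiv.Perm ι := e.extendSubtype
  have hπ : ∀ b : {b // b ∈ B}, π (g b) = b.1 := by
    intro b
    have h1 := Equiv.extendSubtype_apply_of_mem e (g b) ⟨b, rfl⟩
    have h2 : e ⟨g b, ⟨b, rfl⟩⟩ = b := by
      simp only [e]
      rw [Equiv.symm_apply_eq]
      rfl
    exact h1.trans (congrArg Subtype.val h2)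
  have hφ : ∀ j, π j ∈ B → φ j = π j := by
    intro j hj
    have h1 : π (g ⟨π j, hj⟩) = π j := hπ ⟨π j, hj⟩
    have h2 : g ⟨π j, hj⟩ = j := π.injective h1
    have h3 := hg ⟨π j, hj⟩
    rw [h2] at h3
    exact h3
  refine ⟨fun x => if x.2.2 = π x.1 then 1 else 0, ?_⟩
  have hel : ∀ j, lett V D i0 (fun x : ι × ι × ι => if x.2.2 = π x.1 then (1 : ℚ) else 0) j (φ j) =
      (fun r => if r ∈ B then gp V D r else Lp V r) (π j) := by
    intro j
    have h1 : lett V D i0 (fun x : ι × ι × ι => if x.2.2 = π x.1 then (1 : ℚ) else 0) j (φ j) =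
        el V D i0 (φ j) (π j) := by
      unfold lett
      rw [Finset.sum_eq_single (π j)]
      · simp
      · intro r _ hr
        simp [hr]
      · intro h
        exact absurd (Finset.mem_univ _) h
    rw [h1]
    unfold el
    by_cases hj : π j ∈ B
    · have h2 : π j ≠ i0 := Finset.ne_of_mem_erase hj
      have h3 := hφ j hj
      rw [if_pos ⟨h3.symm, by rw [h3]; exact h2⟩]
      simp only [if_pos hj]
      rw [h3]
    · rw [if_neg]
      · simp only [if_neg hj]
      · rintro ⟨h2, h3⟩
        apply hj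
        rw [hB, Finset.mem_erase]
        refine ⟨by rw [h2]; exact h3, ?_⟩
        rw [h2]
        exact Finset.mem_image_of_mem _ (Finset.mem_univ _)
  unfold idl
  congr 1
  rw [← π.surjective.range_comp (fun r => if r ∈ B then gp V D r else Lp V r)]
  congr 1
  funext j
  exact hel j

end Pool.Agent.Helper67.KH.W1
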